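import Mathlib

/-!
# Hypergraphs of incidence dimension at most three with at most three edges through each vertex

Every simple hypergraph (linear or not) whose incidence poset has dimension at most `3` is the
intersection hypergraph of convex polygons `S v` with at most `max 2 (deg v)` corners, `deg v` the
number of edges through `v`; if `deg v ≤ 3`, then `S v` is a triangle or a segment.  So the question
has a positive answer if every vertex lies in at most three edges.

Construction: the edge `e` is the point with homogeneous coordinates `2 ^ (- 4 g_i(e))`, and `S v` is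
the convex hull of the points of the edges through `v` (and of one further point if there is only one
such edge).  If `a`, `b`, `c` are the maxima of a set `U` in the three orders and no edge contains `U`,
then with suitable positive multiples `Y_0`, `Y_1`, `Y_2` of the homogeneous coordinates
`4 Y_0 ≤ Y_1 + Y_2` on `S a`, `4 Y_1 ≤ Y_0 + Y_2` on `S b` and `4 Y_2 ≤ Y_0 + Y_1` on `S c`, so that
`S a`, `S b`, `S c` have no common point.
-/

set_option autoImplicit false

namespace Pool.Agent.Results.MP_425fdd_co.ThreeEdgesPerVertex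

open scoped BigOperators

/-- the point of the plane with homogeneous coordinates `2 ^ (- G i)`, `i = 0, 1, 2` -/
noncomputable def wt (G : Fin 3 → ℤ) (i : Fin 3) : ℝ := (2 : ℝ) ^ (-(G i))

noncomputable def pt (G : Fin 3 → ℤ) : ℝ × ℝ :=
  (wt G 0 / (wt G 0 + wt G 1 + wt G 2), wt G 1 / (wt G 0 + wt G 1 + wt G 2))

theorem wt_pos (G : Fin 3 → ℤ) (i : Fin 3) : 0 < wt G i := by unfold wt; positivity

/-- three sets of points with the sign pattern of a bad triple have hulls without common point -/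
theorem no_common (A B C : Set (ℝ × ℝ)) (o : Fin 3 → ℤ)
    (hA : ∀ x ∈ A, ∃ G : Fin 3 → ℤ, x = pt G ∧ o 0 < G 0 ∧ (G 1 < o 1 ∨ G 2 < o 2))
    (hB : ∀ x ∈ B, ∃ G : Fin 3 → ℤ, x = pt G ∧ o 1 < G 1 ∧ (G 0 < o 0 ∨ G 2 < o 2))
    (hC : ∀ x ∈ C, ∃ G : Fin 3 → ℤ, x = pt G ∧ o 2 < G 2 ∧ (G 0 < o 0 ∨ G 1 < o 1))
    (z : ℝ × ℝ) (zA : z ∈ convexHull ℝ A) (zB : z ∈ convexHull ℝ B) (zC : z ∈ convexHull ℝ C) :
    False := by
  -- three linear functions, positive on the points
  let c : Fin 3 → ℝ := fun i => (2 : ℝ) ^ (o i)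
  have hc : ∀ i, 0 < c i := fun i => by simp only [c]; positivity
  let Y0 : ℝ × ℝ → ℝ := fun x => c 0 * x.1
  let Y1 : ℝ × ℝ → ℝ := fun x => c 1 * x.2
  let Y2 : ℝ × ℝ → ℝ := fun x => c 2 * (1 - x.1 - x.2)
  have key : ∀ (G : Fin 3 → ℤ), Y0 (pt G) = c 0 * wt G 0 / (wt G 0 + wt G 1 + wt G 2) ∧
      Y1 (pt G) = c 1 * wt G 1 / (wt G 0 + wt G 1 + wt G 2) ∧
      Y2 (pt G) = c 2 * wt G 2 / (wt G 0 + wt G 1 + wt G 2) := by
    intro G
    have h0 := wt_pos G 0
    have h1 := wt_pos G 1
    have h2 := wt_pos G 2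
    have hs : wt G 0 + wt G 1 + wt G 2 ≠ 0 := by positivity
    refine ⟨?_, ?_, ?_⟩ <;> simp only [Y0, Y1, Y2, pt] <;> field_simp <;> ring
  have hlo : ∀ (G : Fin 3 → ℤ) (i : Fin 3), o i < G i → c i * wt G i ≤ 1 / 2 := by
    intro G i h
    simp only [c, wt]
    rw [← zpow_add₀ (by norm_num : (2 : ℝ) ≠ 0)]
    have : (2 : ℝ) ^ (o i + -(G i)) ≤ (2 : ℝ) ^ (-1 : ℤ) :=
      zpow_le_zpow_right₀ (by norm_num) (by omega)
    refine this.trans (le_of_eq ?_)
    norm_num
  have hhi : ∀ (G : Fin 3 → ℤ) (i : Fin 3), G i < o i → 2 ≤ c i * wt G i := by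
    intro G i h
    simp only [c, wt]
    rw [← zpow_add₀ (by norm_num : (2 : ℝ) ≠ 0)]
    have : (2 : ℝ) ^ (1 : ℤ) ≤ (2 : ℝ) ^ (o i + -(G i)) :=
      zpow_le_zpow_right₀ (by norm_num) (by omega)
    refine le_trans (le_of_eq ?_) this
    norm_num
  have hpos : ∀ (G : Fin 3 → ℤ) (i : Fin 3), 0 < c i * wt G i := fun G i =>
    mul_pos (hc i) (wt_pos G i)
  -- half planes
  have hull : ∀ (α β γ : ℝ) (S : Set (ℝ × ℝ)), (∀ x ∈ S, α * x.1 + β * x.2 ≤ γ) →
      ∀ x ∈ convexHull ℝ S, α * x.1 + β * x.2 ≤ γ := by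
    intro α β γ S hS x hx
    have hconv : Convex ℝ {x : ℝ × ℝ | α * x.1 + β * x.2 ≤ γ} := by
      intro u hu v hv s t hs ht hst
      simp only [Set.mem_ofPred_eq, Prod.fst_add, Prod.snd_add, Prod.smul_fst, Prod.smul_snd,
        smul_eq_mul] at hu hv ⊢
      have h1 := mul_le_mul_of_nonneg_left hu hs
      have h2 := mul_le_mul_of_nonneg_left hv ht
      have h3 : γ = s * γ + t * γ := by rw [← add_mul, hst, one_mul]
      linarith
    exact convexHull_min (fun y hy => hS y hy) hconv hx
  have base : ∀ (G : Fin 3 → ℤ) (a b d : ℝ), 4 * a ≤ b + d →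
      4 * (a / (wt G 0 + wt G 1 + wt G 2)) ≤ b / (wt G 0 + wt G 1 + wt G 2)
        + d / (wt G 0 + wt G 1 + wt G 2) := by
    intro G a b d h
    have h0 := wt_pos G 0
    have h1 := wt_pos G 1
    have h2 := wt_pos G 2
    have hs : 0 < wt G 0 + wt G 1 + wt G 2 := by positivity
    rw [← add_div, ← mul_div_assoc]
    exact div_le_div_of_nonneg_right h hs.le
  have kA : ∀ x ∈ A, 4 * Y0 x ≤ Y1 x + Y2 x := by
    intro x hx
    obtain ⟨G, rfl, h1, h2⟩ := hA x hx
    obtain ⟨e0, e1, e2⟩ := key G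
    rw [e0, e1, e2]
    apply base
    have := hlo G 0 h1
    have p1 := hpos G 1
    have p2 := hpos G 2
    rcases h2 with h2 | h2
    · have := hhi G 1 h2; linarith
    · have := hhi G 2 h2; linarith
  have kB : ∀ x ∈ B, 4 * Y1 x ≤ Y0 x + Y2 x := by
    intro x hx
    obtain ⟨G, rfl, h1, h2⟩ := hB x hx
    obtain ⟨e0, e1, e2⟩ := key G
    rw [e0, e1, e2]
    apply base
    have := hlo G 1 h1
    have p1 := hpos G 0
    have p2 := hpos G 2
    rcases h2 with h2 | h2
    · have := hhi G 0 h2; linarith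
    · have := hhi G 2 h2; linarith
  have kC : ∀ x ∈ C, 4 * Y2 x ≤ Y0 x + Y1 x := by
    intro x hx
    obtain ⟨G, rfl, h1, h2⟩ := hC x hx
    obtain ⟨e0, e1, e2⟩ := key G
    rw [e0, e1, e2]
    apply base
    have := hlo G 2 h1
    have p1 := hpos G 0
    have p2 := hpos G 1
    rcases h2 with h2 | h2
    · have := hhi G 0 h2; linarith
    · have := hhi G 1 h2; linarith
  have fA : 4 * Y0 z ≤ Y1 z + Y2 z := by
    have := hull (4 * c 0 + c 2) (c 2 - c 1) (c 2) A (fun x hx => by
      have := kA x hx; simp only [Y0, Y1, Y2] at this; linarith) z zA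
    simp only [Y0, Y1, Y2]; linarith
  have fB : 4 * Y1 z ≤ Y0 z + Y2 z := by
    have := hull (c 2 - c 0) (4 * c 1 + c 2) (c 2) B (fun x hx => by
      have := kB x hx; simp only [Y0, Y1, Y2] at this; linarith) z zB
    simp only [Y0, Y1, Y2]; linarith
  have fC : 4 * Y2 z ≤ Y0 z + Y1 z := by
    have := hull (-(4 * c 2) - c 0) (-(4 * c 2) - c 1) (-(4 * c 2)) C (fun x hx => by
      have := kC x hx; simp only [Y0, Y1, Y2] at this; linarith) z zC
    simp only [Y0, Y1, Y2]; linarith
  -- positivity of the sum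
  have pz : 0 < z.1 := by
    have := hull (-1) 0 0 A (fun x hx => by
      obtain ⟨G, rfl, -, -⟩ := hA x hx
      have h0 := wt_pos G 0
      have h1 := wt_pos G 1
      have h2 := wt_pos G 2
      have : 0 < (pt G).1 := by simp only [pt]; positivity
      linarith) z zA
    have nn : 0 ≤ z.1 := by linarith
    rcases nn.lt_or_eq with h | h
    · exact h
    · exfalso
      -- strict positivity through the open half plane
      have hconv : Convex ℝ {x : ℝ × ℝ | 0 < x.1} := by
        intro u hu v hv s t hs ht hst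
        simp only [Set.mem_ofPred_eq, Prod.fst_add, Prod.smul_fst, smul_eq_mul] at hu hv ⊢
        rcases hs.lt_or_eq with h' | h'
        · have := mul_pos h' hu
          have := mul_nonneg ht hv.le
          linarith
        · have : t = 1 := by linarith
          rw [← h', this]; linarith
      have hz : z ∈ {x : ℝ × ℝ | 0 < x.1} := convexHull_min (fun x hx => by
        obtain ⟨G, rfl, -, -⟩ := hA x hx
        have h0 := wt_pos G 0
        have h1 := wt_pos G 1
        have h2 := wt_pos G 2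
        show 0 < (pt G).1
        simp only [pt]; positivity) hconv zA
      simp only [Set.mem_ofPred_eq] at hz
      linarith
  have hY0 : 0 < Y0 z := mul_pos (hc 0) pz
  have hsum : Y0 z + Y1 z + Y2 z ≤ 0 := by linarith
  have hY1 : 0 ≤ Y1 z := by
    have := hull 0 (-1) 0 A (fun x hx => by
      obtain ⟨G, rfl, -, -⟩ := hA x hx
      have h0 := wt_pos G 0
      have h1 := wt_pos G 1
      have h2 := wt_pos G 2
      have : 0 < (pt G).2 := by simp only [pt]; positivity
      linarith) z zA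
    have : 0 ≤ z.2 := by linarith
    exact mul_nonneg (hc 1).le this
  have hY2 : 0 ≤ Y2 z := by
    have := hull 1 1 1 A (fun x hx => by
      obtain ⟨G, rfl, -, -⟩ := hA x hx
      have h0 := wt_pos G 0
      have h1 := wt_pos G 1
      have h2 := wt_pos G 2
      have hs : 0 < wt G 0 + wt G 1 + wt G 2 := by positivity
      simp only [pt, one_mul]
      rw [← add_div, div_le_one hs]
      linarith) z zA
    have : 0 ≤ 1 - z.1 - z.2 := by linarith
    exact mul_nonneg (hc 2).le this
  linarith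


theorem pt_eq {G G' : Fin 3 → ℤ} (h : pt G = pt G') :
    G' 1 - G 1 = G' 0 - G 0 ∧ G' 2 - G 2 = G' 0 - G 0 := by
  have h0 := wt_pos G 0
  have h1 := wt_pos G 1
  have h2 := wt_pos G 2
  have h0' := wt_pos G' 0
  have h1' := wt_pos G' 1
  have h2' := wt_pos G' 2
  have hs : 0 < wt G 0 + wt G 1 + wt G 2 := by positivity
  have hs' : 0 < wt G' 0 + wt G' 1 + wt G' 2 := by positivity
  have e0 : wt G 0 / (wt G 0 + wt G 1 + wt G 2) = wt G' 0 / (wt G' 0 + wt G' 1 + wt G' 2) :=
    congrArg Prod.fst h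
  have e1 : wt G 1 / (wt G 0 + wt G 1 + wt G 2) = wt G' 1 / (wt G' 0 + wt G' 1 + wt G' 2) :=
    congrArg Prod.snd h
  rw [div_eq_div_iff hs.ne' hs'.ne'] at e0 e1
  have e2 : wt G 2 * (wt G' 0 + wt G' 1 + wt G' 2) = wt G' 2 * (wt G 0 + wt G 1 + wt G 2) := by
    linarith
  have cross : ∀ i, wt G i * (wt G' 0 + wt G' 1 + wt G' 2) = wt G' i * (wt G 0 + wt G 1 + wt G 2) →
      G' i - G i = G' 0 - G 0 := by
    intro i hi
    have hm : wt G i * wt G' 0 = wt G' i * wt G 0 := by
      have hne : (wt G 0 + wt G 1 + wt G 2) * (wt G' 0 + wt G' 1 + wt G' 2) ≠ 0 := by positivity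
      apply mul_right_cancel₀ hne
      calc wt G i * wt G' 0 * ((wt G 0 + wt G 1 + wt G 2) * (wt G' 0 + wt G' 1 + wt G' 2))
          = (wt G i * (wt G' 0 + wt G' 1 + wt G' 2)) * (wt G' 0 * (wt G 0 + wt G 1 + wt G 2)) := by
            ring
        _ = (wt G' i * (wt G 0 + wt G 1 + wt G 2)) * (wt G 0 * (wt G' 0 + wt G' 1 + wt G' 2)) := by
            rw [hi, ← e0]
        _ = _ := by ring
    simp only [wt] at hm
    rw [← zpow_add₀ (by norm_num : (2 : ℝ) ≠ 0), ← zpow_add₀ (by norm_num : (2 : ℝ) ≠ 0)] at hm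
    have := zpow_right_injective₀ (by norm_num : (0 : ℝ) < 2) (by norm_num) hm
    omega
  exact ⟨cross 1 e1, cross 2 e2⟩

theorem seg_or_tri (X : Finset (ℝ × ℝ)) (h2 : 2 ≤ X.card) (h3 : X.card ≤ 3) :
    (∃ a b c : ℝ × ℝ, ¬ Collinear ℝ ({a, b, c} : Set (ℝ × ℝ)) ∧
        convexHull ℝ (X : Set (ℝ × ℝ)) = convexHull ℝ ({a, b, c} : Set (ℝ × ℝ))) ∨
      (∃ a b : ℝ × ℝ, a ≠ b ∧ convexHull ℝ (X : Set (ℝ × ℝ)) = segment ℝ a b) := by
  have hc : X.card = 2 ∨ X.card = 3 := by omega
  rcases hc with hc | hc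
  · right
    obtain ⟨a, b, hab, rfl⟩ := Finset.card_eq_two.1 hc
    refine ⟨a, b, hab, ?_⟩
    rw [Finset.coe_pair, convexHull_pair]
  · obtain ⟨a, b, c, hab, hac, hbc, rfl⟩ := Finset.card_eq_three.1 hc
    have hco : ((({a, b, c} : Finset (ℝ × ℝ)) : Set (ℝ × ℝ))) = {a, b, c} := by push_cast; rfl
    rw [hco]
    by_cases hcol : Collinear ℝ ({a, b, c} : Set (ℝ × ℝ))
    · right
      have aux : ∀ x y z : ℝ × ℝ, y ∈ segment ℝ x z →
          convexHull ℝ ({x, y, z} : Set (ℝ × ℝ)) = segment ℝ x z := by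
        intro x y z hy
        apply le_antisymm
        · apply convexHull_min _ (convex_segment x z)
          rintro w (rfl | rfl | rfl)
          · exact left_mem_segment ℝ _ _
          · exact hy
          · exact right_mem_segment ℝ _ _
        · rw [← convexHull_pair]
          exact convexHull_mono (by rintro w (rfl | rfl) <;> simp)
      rcases hcol.wbtw_or_wbtw_or_wbtw with h | h | h
      · exact ⟨a, c, hac, aux a b c (mem_segment_iff_wbtw.2 h)⟩
      · refine ⟨b, a, hab.symm, ?_⟩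
        rw [← aux b c a (mem_segment_iff_wbtw.2 h)]
        congr 1
        ext w; simp only [Set.mem_insert_iff, Set.mem_singleton_iff]; tauto
      · refine ⟨c, b, hbc.symm, ?_⟩
        rw [← aux c a b (mem_segment_iff_wbtw.2 h)]
        congr 1
        ext w; simp only [Set.mem_insert_iff, Set.mem_singleton_iff]; tauto
    · left
      exact ⟨a, b, c, hcol, rfl⟩

/-- `X v` : the points of the edges through `v`; one more point if there is only one edge -/
noncomputable def XX {V : Type} [DecidableEq V] (E : Finset (Finset V)) (f : Fin 3 → V → ℕ)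
    (g : Fin 3 → Finset V → ℕ) (v : V) : Finset (ℝ × ℝ) :=
  if 2 ≤ (E.filter (fun e => v ∈ e)).card then
    (E.filter (fun e => v ∈ e)).image (fun e => pt (fun i => 4 * (g i e : ℤ)))
  else insert (pt (fun i => 4 * (f i v : ℤ) + if i = 1 then 2 else 1))
    ((E.filter (fun e => v ∈ e)).image (fun e => pt (fun i => 4 * (g i e : ℤ))))

theorem result (V : Type) [Fintype V] [DecidableEq V] (E : Finset (Finset V))
    (hne : ∀ e ∈ E, e.Nonempty)
    (hsim : ∀ e ∈ E, ∀ f ∈ E, e ⊆ f → e = f)
    (hcov : ∀ v : V, ∃ e ∈ E, v ∈ e)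
    (hreal : ∃ (f : Fin 3 → V → ℕ) (g : Fin 3 → Finset V → ℕ),
      (∀ i, Function.Injective (f i)) ∧
      (∀ i, ∀ e ∈ E, ∀ e' ∈ E, g i e = g i e' → e = e') ∧
      (∀ i, ∀ v : V, ∀ e ∈ E, f i v ≠ g i e) ∧
      (∀ v w : V, v ≠ w → ¬ ∀ i, f i v < f i w) ∧
      (∀ e ∈ E, ∀ e' ∈ E, e ≠ e' → ¬ ∀ i, g i e < g i e') ∧
      (∀ v : V, ∀ e ∈ E, ((∀ i, f i v < g i e) ↔ v ∈ e) ∧ ¬ ∀ i, g i e < f i v)) :
    ∃ S : V → Set (ℝ × ℝ),
      (∀ v, ∃ X : Finset (ℝ × ℝ), 2 ≤ X.card ∧
        X.card ≤ max 2 (E.filter (fun e => v ∈ e)).card ∧ S v = convexHull ℝ (X : Set (ℝ × ℝ))) ∧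
      (∀ v, (E.filter (fun e => v ∈ e)).card ≤ 3 →
        (∃ a b c : ℝ × ℝ, ¬ Collinear ℝ ({a, b, c} : Set (ℝ × ℝ)) ∧
            S v = convexHull ℝ ({a, b, c} : Set (ℝ × ℝ))) ∨
        (∃ a b : ℝ × ℝ, a ≠ b ∧ S v = segment ℝ a b)) ∧
      ∀ U : Finset V, U ∈ E ↔ (U.Nonempty ∧ (⋂ v ∈ U, S v).Nonempty ∧
          ∀ W : Finset V, U ⊆ W → (⋂ v ∈ W, S v).Nonempty → W = U) := by
  obtain ⟨f, g, hf, hg, hfg, hV, hE, hinc⟩ := hreal
  have hXne : ∀ e ∈ E, ∀ e' ∈ E, pt (fun i => 4 * (g i e : ℤ)) = pt (fun i => 4 * (g i e' : ℤ)) →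
      e = e' := by
    intro e he e' he' h
    obtain ⟨h1, h2⟩ := pt_eq h
    by_contra hcon
    rcases lt_trichotomy (g 0 e) (g 0 e') with h0 | h0 | h0
    · apply hE e he e' he' hcon
      intro i
      fin_cases i
      · exact h0
      · show g 1 e < g 1 e'
        omega
      · show g 2 e < g 2 e'
        omega
    · exact hcon (hg 0 e he e' he' h0)
    · apply hE e' he' e he (Ne.symm hcon)
      intro i
      fin_cases i
      · exact h0
      · show g 1 e' < g 1 e
        omega
      · show g 2 e' < g 2 e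
        omega
  have hcardim : ∀ v, ((E.filter (fun e => v ∈ e)).image
      (fun e => pt (fun i => 4 * (g i e : ℤ)))).card = (E.filter (fun e => v ∈ e)).card := by
    intro v
    apply Finset.card_image_of_injOn
    intro e he e' he' h
    exact hXne e (Finset.mem_filter.1 he).1 e' (Finset.mem_filter.1 he').1 h
  have hdeg : ∀ v, 1 ≤ (E.filter (fun e => v ∈ e)).card := by
    intro v
    obtain ⟨e, he, hve⟩ := hcov v
    exact Finset.card_pos.2 ⟨e, Finset.mem_filter.2 ⟨he, hve⟩⟩
  have hcard : ∀ v, 2 ≤ (XX E f g v).card ∧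
      (XX E f g v).card ≤ max 2 (E.filter (fun e => v ∈ e)).card := by
    intro v
    unfold XX
    split_ifs with h
    · rw [hcardim v]
      exact ⟨h, le_max_right _ _⟩
    · rw [Finset.card_insert_of_notMem, hcardim v]
      · have := hdeg v
        constructor
        · omega
        · refine le_trans ?_ (le_max_left _ _)
          omega
      · intro hmem
        obtain ⟨e, -, he⟩ := Finset.mem_image.1 hmem
        obtain ⟨h1, h2⟩ := pt_eq he
        simp only [if_true, if_neg (show ¬ ((0 : Fin 3) = 1) by decide)] at h1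
        omega
  have hmem : ∀ v, ∀ e ∈ E, v ∈ e → pt (fun i => 4 * (g i e : ℤ)) ∈ XX E f g v := by
    intro v e he hve
    have : pt (fun i => 4 * (g i e : ℤ)) ∈ (E.filter (fun e => v ∈ e)).image
        (fun e => pt (fun i => 4 * (g i e : ℤ))) :=
      Finset.mem_image.2 ⟨e, Finset.mem_filter.2 ⟨he, hve⟩, rfl⟩
    unfold XX
    split_ifs
    · exact this
    · exact Finset.mem_insert_of_mem this
  have hcases : ∀ v, ∀ x ∈ XX E f g v, (∃ e ∈ E, v ∈ e ∧ x = pt (fun i => 4 * (g i e : ℤ))) ∨
      x = pt (fun i => 4 * (f i v : ℤ) + if i = 1 then 2 else 1) := by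
    intro v x hx
    unfold XX at hx
    split_ifs at hx
    · obtain ⟨e, he, rfl⟩ := Finset.mem_image.1 hx
      exact Or.inl ⟨e, (Finset.mem_filter.1 he).1, (Finset.mem_filter.1 he).2, rfl⟩
    · rcases Finset.mem_insert.1 hx with rfl | hx
      · exact Or.inr rfl
      · obtain ⟨e, he, rfl⟩ := Finset.mem_image.1 hx
        exact Or.inl ⟨e, (Finset.mem_filter.1 he).1, (Finset.mem_filter.1 he).2, rfl⟩
  -- the main property
  have hmain : ∀ U : Finset V, U.Nonempty →
      (⋂ v ∈ U, convexHull ℝ ((XX E f g v : Finset (ℝ × ℝ)) : Set (ℝ × ℝ))).Nonempty →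
      ∃ e ∈ E, U ⊆ e := by
    intro U hU hz
    obtain ⟨z, hz⟩ := hz
    rw [Set.mem_iInter₂] at hz
    by_contra hcon
    push Not at hcon
    obtain ⟨a, haU, ha⟩ := Finset.exists_max_image U (f 0) hU
    obtain ⟨b, hbU, hb⟩ := Finset.exists_max_image U (f 1) hU
    obtain ⟨c, hcU, hc⟩ := Finset.exists_max_image U (f 2) hU
    have big : ∀ e ∈ E, g 0 e < f 0 a ∨ g 1 e < f 1 b ∨ g 2 e < f 2 c := by
      intro e he
      by_contra hno
      push Not at hno
      obtain ⟨n0, n1, n2⟩ := hno
      apply hcon e he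
      intro u hu
      apply ((hinc u e he).1).1
      intro i
      have q0 := hfg 0 a e he
      have q1 := hfg 1 b e he
      have q2 := hfg 2 c e he
      have := ha u hu
      have := hb u hu
      have := hc u hu
      fin_cases i
      · show f 0 u < g 0 e
        omega
      · show f 1 u < g 1 e
        omega
      · show f 2 u < g 2 e
        omega
    have bigH : ∀ v ∈ U, f 0 v < f 0 a ∨ f 1 v < f 1 b ∨ f 2 v < f 2 c := by
      intro v hv
      by_contra hno
      push Not at hno
      obtain ⟨n0, n1, n2⟩ := hno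
      obtain ⟨e, he, hve⟩ := hcov v
      apply hcon e he
      intro u hu
      have : u = v := by
        by_contra huv
        apply hV u v huv
        intro i
        have l0 := (ha u hu).trans n0
        have l1 := (hb u hu).trans n1
        have l2 := (hc u hu).trans n2
        have k0 : f 0 u ≠ f 0 v := fun h => huv (hf 0 h)
        have k1 : f 1 u ≠ f 1 v := fun h => huv (hf 1 h)
        have k2 : f 2 u ≠ f 2 v := fun h => huv (hf 2 h)
        fin_cases i
        · show f 0 u < f 0 v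
          omega
        · show f 1 u < f 1 v
          omega
        · show f 2 u < f 2 v
          omega
      rw [this]
      exact hve
    refine no_common (XX E f g a : Set (ℝ × ℝ)) (XX E f g b : Set (ℝ × ℝ))
      (XX E f g c : Set (ℝ × ℝ))
      (fun i => if i = 0 then 4 * (f 0 a : ℤ) else if i = 1 then 4 * (f 1 b : ℤ)
        else 4 * (f 2 c : ℤ)) ?_ ?_ ?_ z (hz a haU) (hz b hbU) (hz c hcU)
    · intro x hx
      rcases hcases a x hx with ⟨e, he, hae, rfl⟩ | rfl
      · refine ⟨_, rfl, ?_, ?_⟩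
        · have := ((hinc a e he).1).2 hae 0
          simp only [if_true]
          omega
        · have h0 := ((hinc a e he).1).2 hae 0
          have := big e he
          simp
          omega
      · refine ⟨_, rfl, ?_, ?_⟩
        · simp
        · have := bigH a haU
          simp
          omega
    · intro x hx
      rcases hcases b x hx with ⟨e, he, hae, rfl⟩ | rfl
      · refine ⟨_, rfl, ?_, ?_⟩
        · have := ((hinc b e he).1).2 hae 1
          simp
          omega
        · have h0 := ((hinc b e he).1).2 hae 1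
          have := big e he
          simp
          omega
      · refine ⟨_, rfl, ?_, ?_⟩
        · simp
        · have := bigH b hbU
          simp
          omega
    · intro x hx
      rcases hcases c x hx with ⟨e, he, hae, rfl⟩ | rfl
      · refine ⟨_, rfl, ?_, ?_⟩
        · have := ((hinc c e he).1).2 hae 2
          simp
          omega
        · have h0 := ((hinc c e he).1).2 hae 2
          have := big e he
          simp
          omega
      · refine ⟨_, rfl, ?_, ?_⟩
        · simp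
        · have := bigH c hcU
          simp
          omega
  have hedge : ∀ e ∈ E,
      (⋂ v ∈ e, convexHull ℝ ((XX E f g v : Finset (ℝ × ℝ)) : Set (ℝ × ℝ))).Nonempty := by
    intro e he
    refine ⟨pt (fun i => 4 * (g i e : ℤ)), ?_⟩
    rw [Set.mem_iInter₂]
    intro v hv
    exact subset_convexHull ℝ _ (hmem v e he hv)
  refine ⟨fun v => convexHull ℝ ((XX E f g v : Finset (ℝ × ℝ)) : Set (ℝ × ℝ)),
    fun v => ⟨XX E f g v, (hcard v).1, (hcard v).2, rfl⟩, ?_, ?_⟩
  · intro v hv
    apply seg_or_tri _ (hcard v).1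
    refine (hcard v).2.trans ?_
    exact max_le (by norm_num) hv
  · intro U
    constructor
    · intro hU
      refine ⟨hne U hU, hedge U hU, ?_⟩
      intro W hUW hW
      obtain ⟨e, he, hWe⟩ := hmain W ((hne U hU).mono hUW) hW
      have := hsim U hU e he (hUW.trans hWe)
      subst this
      exact le_antisymm hWe hUW
    · rintro ⟨hU, hz, hmax⟩
      obtain ⟨e, he, hUe⟩ := hmain U hU hz
      have := hmax e hUe (hedge e he)
      rw [← this]
      exact he

end Pool.Agent.Results.MP_425fdd_co.ThreeEdgesPerVertex
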